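import Mathlib
import Pool.Agent.U111.RothB

set_option autoImplicit false

/-!
# A Rothberger space that is not ω-Rothberger, in ZFC

From a coherent sequence of finite-to-one functions `e_α : α → ω` (`α < ω₁`) we define two topologies on `ω₁`.
Write `α <_ξ β` when `e_α` and `e_β` (extended by `0`, the values below `α` being positive) agree below `ξ` and
`e_α(ξ) < e_β(ξ)`.  Basic neighbourhoods of `α` are
`U_n(α) = {α} ∪ {d : α <_ξ d, e_d(ξ) > n}` in the first topology and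
`V_n(α) = {α} ∪ {d : d <_ξ α, e_α(ξ) > n}` in the second one.
Both are hereditarily Rothberger, and any two points `α, β` have `U_n(α) ∩ V_n(β) ⊆ {α}` for some `n`.
So the disjoint sum is hereditarily Rothberger but it has an ω-cover without a countable ω-subcover.
-/

namespace Pool.Agent.Results.MP_f9bcb0_lc.RothbergerNotOmega

open Set Topology Pool.Agent.U111.Roth Pool.Agent.E8helper92.LOTS

/-- `X` is Rothberger: for every sequence of open covers one can choose one member of each so that the chosen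
sets cover `X`. -/
def Rothberger (X : Type) [TopologicalSpace X] : Prop :=
  ∀ U : ℕ → Set (Set X), (∀ n, (∀ u ∈ U n, IsOpen u) ∧ ⋃₀ U n = univ) →
    ∃ s : ℕ → Set X, (∀ n, s n ∈ U n) ∧ ⋃ n, s n = univ

/-- `U` is an ω-cover of `X`: a family of open sets covering `X`, not containing `X` itself, such that every
finite subset of `X` is contained in a member of `U`. -/
def IsOmegaCover {X : Type} [TopologicalSpace X] (U : Set (Set X)) : Prop :=
  (∀ u ∈ U, IsOpen u) ∧ ⋃₀ U = univ ∧ univ ∉ U ∧ ∀ F : Finset X, ∃ u ∈ U, (F : Set X) ⊆ u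

/-- `X` is ω-Rothberger: for every sequence of ω-covers one can choose one member of each so that the chosen
sets form an ω-cover. -/
def OmegaRothberger (X : Type) [TopologicalSpace X] : Prop :=
  ∀ U : ℕ → Set (Set X), (∀ n, IsOmegaCover (U n)) →
    ∃ s : ℕ → Set X, (∀ n, s n ∈ U n) ∧ IsOmegaCover (range s)

/-- the union of two sets with the selection property has it -/
theorem SetRoth.union {X : Type} {τ : TopologicalSpace X} {Y Z : Set X} (hY : SetRoth τ Y) (hZ : SetRoth τ Z) :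
    SetRoth τ (Y ∪ Z) := by
  intro U hne hU hcov
  obtain ⟨s, hs1, hs2⟩ := hY (fun n => U (2 * n)) (fun n => hne _) (fun n => hU _)
    (fun n => subset_union_left.trans (hcov _))
  obtain ⟨t, ht1, ht2⟩ := hZ (fun n => U (2 * n + 1)) (fun n => hne _) (fun n => hU _)
    (fun n => subset_union_right.trans (hcov _))
  refine ⟨fun n => if n % 2 = 0 then s (n / 2) else t (n / 2), fun n => ?_, ?_⟩
  · rcases Nat.even_or_odd' n with ⟨k, rfl | rfl⟩
    · have h1 : (2 * k) % 2 = 0 := by omega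
      have h2 : (2 * k) / 2 = k := by omega
      simp only [h1, h2, if_true]
      exact hs1 k
    · have h1 : ¬ (2 * k + 1) % 2 = 0 := by omega
      have h2 : (2 * k + 1) / 2 = k := by omega
      simp only [h1, h2, if_false]
      exact ht1 k
  · rintro x (hx | hx)
    · obtain ⟨k, hk⟩ := mem_iUnion.1 (hs2 hx)
      refine mem_iUnion.2 ⟨2 * k, ?_⟩
      have h1 : (2 * k) % 2 = 0 := by omega
      have h2 : (2 * k) / 2 = k := by omega
      simp only [h1, h2, if_true]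
      exact hk
    · obtain ⟨k, hk⟩ := mem_iUnion.1 (ht2 hx)
      refine mem_iUnion.2 ⟨2 * k + 1, ?_⟩
      have h1 : ¬ (2 * k + 1) % 2 = 0 := by omega
      have h2 : (2 * k + 1) / 2 = k := by omega
      simp only [h1, h2, if_false]
      exact hk

/-- the selection property passes to continuous images -/
theorem SetRoth.image {X Z : Type} {τ : TopologicalSpace X} {σ : TopologicalSpace Z} {Y : Set X}
    (hY : SetRoth τ Y) (f : X → Z) (hf : Continuous[τ, σ] f) : SetRoth σ (f '' Y) := by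
  intro U hne hU hcov
  obtain ⟨s, hs1, hs2⟩ := hY (fun n => (fun u => f ⁻¹' u) '' (U n)) (fun n => (hne n).image _)
    (by
      rintro n _ ⟨u, hu, rfl⟩
      exact (hU n u hu).preimage hf)
    (by
      intro n y hy
      obtain ⟨u, hu, hy2⟩ := hcov n ⟨y, hy, rfl⟩
      exact ⟨f ⁻¹' u, ⟨u, hu, rfl⟩, hy2⟩)
  choose t ht1 ht2 using hs1
  refine ⟨t, ht1, ?_⟩
  rintro _ ⟨y, hy, rfl⟩
  obtain ⟨k, hk⟩ := mem_iUnion.1 (hs2 hy)
  refine mem_iUnion.2 ⟨k, ?_⟩
  have h1 : f ⁻¹' (t k) = s k := ht2 k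
  have h2 : y ∈ f ⁻¹' (t k) := by rw [h1]; exact hk
  exact h2

theorem SetRoth.rothberger {X : Type} [τ : TopologicalSpace X] {Y : Set X} (hY : SetRoth τ Y)
    (hne : Y.Nonempty) : Rothberger Y := by
  intro U hU
  -- extend the open sets
  obtain ⟨y0, hy0⟩ := hne
  have hneU : ∀ n, (U n).Nonempty := by
    intro n
    have h1 : (⟨y0, hy0⟩ : Y) ∈ ⋃₀ U n := by rw [(hU n).2]; trivial
    obtain ⟨u, hu, _⟩ := h1
    exact ⟨u, hu⟩
  obtain ⟨s, hs1, hs2⟩ := hY (fun n => {V | IsOpen V ∧ (Subtype.val ⁻¹' V : Set Y) ∈ U n})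
    (by
      intro n
      obtain ⟨u, hu⟩ := hneU n
      obtain ⟨V, hV, hV2⟩ := isOpen_induced_iff.1 ((hU n).1 u hu)
      exact ⟨V, hV, by rw [hV2]; exact hu⟩)
    (fun n V hV => hV.1)
    (by
      intro n y hy
      have h1 : (⟨y, hy⟩ : Y) ∈ ⋃₀ U n := by rw [(hU n).2]; trivial
      obtain ⟨u, hu, hyu⟩ := h1
      obtain ⟨V, hV, hV2⟩ := isOpen_induced_iff.1 ((hU n).1 u hu)
      refine ⟨V, ⟨hV, by rw [hV2]; exact hu⟩, ?_⟩
      have h2 : (⟨y, hy⟩ : Y) ∈ (Subtype.val ⁻¹' V : Set Y) := by rw [hV2]; exact hyu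
      exact h2)
  refine ⟨fun n => Subtype.val ⁻¹' (s n), fun n => (hs1 n).2, ?_⟩
  apply eq_univ_of_forall
  rintro ⟨y, hy⟩
  obtain ⟨k, hk⟩ := mem_iUnion.1 (hs2 hy)
  exact mem_iUnion.2 ⟨k, hk⟩

/-- **Answer to the question (negative).**  ZFC proves that there is a Rothberger space that is not ω-Rothberger.
In detail: there is a `T₁`, first countable space `X` of size `ℵ₁` such that `X`, and indeed every nonempty
subspace of `X`, is Rothberger, while `X` is not ω-Rothberger.  Moreover `X` has an ω-cover no countable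
subfamily of which is an ω-cover, and `X × X` is not Lindelöf. -/
theorem result : ∃ (X : Type) (_ : TopologicalSpace X),
    T1Space X ∧ FirstCountableTopology X ∧ Cardinal.mk X = Cardinal.aleph 1 ∧
    Rothberger X ∧ (∀ Y : Set X, Y.Nonempty → Rothberger Y) ∧
    ¬ OmegaRothberger X ∧
    (∃ U : Set (Set X), IsOmegaCover U ∧ ∀ V ⊆ U, V.Countable → ¬ IsOmegaCover V) ∧
    ¬ LindelofSpace (X × X) := by
  classical
  obtain ⟨e, he1, he2, he3, he4⟩ := exists_coherent
  have he : Coh e := ⟨he1, he2, he3, he4⟩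
  let S₀ := upSys he
  let S₁ := dnSys he
  let τ : TopologicalSpace (W1 ⊕ W1) := @instTopologicalSpaceSum W1 W1 S₀.top S₁.top
  have hopen : ∀ s : Set (W1 ⊕ W1), IsOpen s ↔ IsOpen[S₀.top] (Sum.inl ⁻¹' s) ∧ IsOpen[S₁.top] (Sum.inr ⁻¹' s) :=
    fun s => @isOpen_sum_iff W1 W1 S₀.top S₁.top s
  have := W1_uncountable
  obtain ⟨x0⟩ : Nonempty W1 := inferInstance
  -- basic open sets
  let B : W1 → W1 → ℕ → Set (W1 ⊕ W1) := fun α β n => Sum.inl '' (Up e n α) ∪ Sum.inr '' (Dn e n β)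
  have hBl : ∀ s t : Set W1, (Sum.inl ⁻¹' (Sum.inl '' s ∪ Sum.inr '' t : Set (W1 ⊕ W1))) = s := by
    intro s t
    ext x
    simp
  have hBr : ∀ s t : Set W1, (Sum.inr ⁻¹' (Sum.inl '' s ∪ Sum.inr '' t : Set (W1 ⊕ W1))) = t := by
    intro s t
    ext x
    simp
  have hO : ∀ s t : Set W1, IsOpen[S₀.top] s → IsOpen[S₁.top] t →
      IsOpen (Sum.inl '' s ∪ Sum.inr '' t : Set (W1 ⊕ W1)) := by
    intro s t hs ht
    rw [hopen, hBl, hBr]
    exact ⟨hs, ht⟩
  -- hereditary Rothberger property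
  have hroth : ∀ Y : Set (W1 ⊕ W1), SetRoth τ Y := by
    intro Y
    have h1 : Y = Sum.inl '' (Sum.inl ⁻¹' Y) ∪ Sum.inr '' (Sum.inr ⁻¹' Y) := by
      ext x
      rcases x with x | x <;> simp
    rw [h1]
    refine SetRoth.union ?_ ?_
    · exact SetRoth.image (S₀.setRoth _) Sum.inl (@continuous_inl W1 W1 S₀.top S₁.top)
    · exact SetRoth.image (S₁.setRoth _) Sum.inr (@continuous_inr W1 W1 S₀.top S₁.top)
  have hher : ∀ Y : Set (W1 ⊕ W1), Y.Nonempty → Rothberger Y := fun Y hY => SetRoth.rothberger (hroth Y) hY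
  have hX : Rothberger (W1 ⊕ W1) := by
    intro U hU
    obtain ⟨s, hs1, hs2⟩ := hroth univ U
      (by
        intro n
        have h1 : (Sum.inl x0 : W1 ⊕ W1) ∈ ⋃₀ U n := by rw [(hU n).2]; trivial
        obtain ⟨u, hu, _⟩ := h1
        exact ⟨u, hu⟩)
      (fun n => (hU n).1) (fun n => (hU n).2.ge)
    exact ⟨s, hs1, univ_subset_iff.1 hs2⟩
  -- the ω-cover
  let 𝒰 : Set (Set (W1 ⊕ W1)) := {w | IsOpen w ∧ (Sum.inl ⁻¹' w ∩ Sum.inr ⁻¹' w : Set W1).Finite}
  have h𝒰F : ∀ F : Finset (W1 ⊕ W1), ∃ u ∈ 𝒰, (F : Set (W1 ⊕ W1)) ⊆ u := by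
    intro F
    let F₀ : Finset W1 := F.preimage Sum.inl Sum.inl_injective.injOn
    let F₁ : Finset W1 := F.preimage Sum.inr Sum.inr_injective.injOn
    choose N hN using fun p : W1 × W1 => orth he p.1 p.2
    obtain ⟨n, hn⟩ : ∃ n, ∀ α ∈ F₀, ∀ β ∈ F₁, N (α, β) ≤ n := by
      refine ⟨(F₀ ×ˢ F₁).sup N, fun α hα β hβ => ?_⟩
      exact Finset.le_sup (f := N) (Finset.mk_mem_product hα hβ)
    refine ⟨Sum.inl '' (⋃ α ∈ F₀, Up e n α) ∪ Sum.inr '' (⋃ β ∈ F₁, Dn e n β), ⟨?_, ?_⟩, ?_⟩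
    · refine hO _ _ ?_ ?_
      · exact @isOpen_biUnion W1 W1 S₀.top _ _ fun α _ => S₀.isOpen_N n α
      · exact @isOpen_biUnion W1 W1 S₁.top _ _ fun α _ => S₁.isOpen_N n α
    · rw [hBl, hBr]
      refine F₀.finite_toSet.subset ?_
      rintro x ⟨h1, h2⟩
      simp only [mem_iUnion] at h1 h2
      obtain ⟨α, hα, h1⟩ := h1
      obtain ⟨β, hβ, h2⟩ := h2
      have h3 : x ∈ Up e (N (α, β)) α ∩ Dn e (N (α, β)) β :=
        ⟨S₀.anti _ _ _ (hn α hα β hβ) h1, S₁.anti _ _ _ (hn α hα β hβ) h2⟩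
      have h4 : x = α := hN (α, β) h3
      rw [h4]
      exact hα
    · rintro (x | x) hx
      · left
        refine ⟨x, ?_, rfl⟩
        simp only [mem_iUnion]
        exact ⟨x, Finset.mem_preimage.2 hx, S₀.self n x⟩
      · right
        refine ⟨x, ?_, rfl⟩
        simp only [mem_iUnion]
        exact ⟨x, Finset.mem_preimage.2 hx, S₁.self n x⟩
  have h𝒰 : IsOmegaCover 𝒰 := by
    refine ⟨fun u hu => hu.1, ?_, ?_, h𝒰F⟩
    · apply eq_univ_of_forall
      intro x
      obtain ⟨u, hu, hx⟩ := h𝒰F {x}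
      exact ⟨u, hu, hx (by simp)⟩
    · rintro ⟨_, h⟩
      simp only [preimage_univ, inter_self] at h
      exact not_countable_univ_iff.2 W1_uncountable h.countable
  have h𝒰c : ∀ V ⊆ 𝒰, V.Countable → ∃ F : Finset (W1 ⊕ W1), ∀ u ∈ V, ¬ (F : Set (W1 ⊕ W1)) ⊆ u := by
    intro V hV hVc
    by_contra hcon
    push Not at hcon
    have h1 : (univ : Set W1) ⊆ ⋃ u ∈ V, (Sum.inl ⁻¹' u ∩ Sum.inr ⁻¹' u : Set W1) := by
      intro x _
      obtain ⟨u, hu, hx⟩ := hcon {Sum.inl x, Sum.inr x}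
      simp only [mem_iUnion]
      exact ⟨u, hu, hx (by simp), hx (by simp)⟩
    exact not_countable_univ_iff.2 W1_uncountable
      ((hVc.biUnion fun u hu => (hV hu).2.countable).mono h1)
  have hnot : ∀ V ⊆ 𝒰, V.Countable → ¬ IsOmegaCover V := by
    intro V hV hVc h
    obtain ⟨F, hF⟩ := h𝒰c V hV hVc
    obtain ⟨u, hu, hFu⟩ := h.2.2.2 F
    exact hF u hu hFu
  refine ⟨W1 ⊕ W1, τ, ?_, ?_, ?_, hX, hher, ?_, ⟨𝒰, h𝒰, hnot⟩, ?_⟩
  · -- T₁
    rw [t1Space_iff_exists_open]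
    rintro (x | x) (y | y) hxy
    · obtain ⟨n, hn⟩ := S₀.t1 x y (fun h => hxy (by rw [h]))
      refine ⟨Sum.inl '' (Up e n x) ∪ Sum.inr '' ∅, hO _ _ (S₀.isOpen_N n x) (@isOpen_empty W1 S₁.top),
        Or.inl ⟨x, S₀.self n x, rfl⟩, ?_⟩
      have hn' : y ∉ Up e n x := hn
      simpa using hn'
    · refine ⟨Sum.inl '' univ ∪ Sum.inr '' ∅, hO _ _ (@isOpen_univ W1 S₀.top) (@isOpen_empty W1 S₁.top),
        by simp, by simp⟩
    · refine ⟨Sum.inl '' ∅ ∪ Sum.inr '' univ, hO _ _ (@isOpen_empty W1 S₀.top) (@isOpen_univ W1 S₁.top),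
        by simp, by simp⟩
    · obtain ⟨n, hn⟩ := S₁.t1 x y (fun h => hxy (by rw [h]))
      refine ⟨Sum.inl '' ∅ ∪ Sum.inr '' (Dn e n x), hO _ _ (@isOpen_empty W1 S₀.top) (S₁.isOpen_N n x),
        Or.inr ⟨x, S₁.self n x, rfl⟩, ?_⟩
      have hn' : y ∉ Dn e n x := hn
      simpa using hn'
  · -- first countable
    refine ⟨fun x => ?_⟩
    rcases x with x | x
    · have hb : (𝓝 (Sum.inl x : W1 ⊕ W1)).HasBasis (fun _ : ℕ => True) fun n => Sum.inl '' (Up e n x) := by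
        refine ⟨fun t => ?_⟩
        constructor
        · intro ht
          obtain ⟨w, hw, hwo, hxw⟩ := mem_nhds_iff.1 ht
          obtain ⟨n, hn⟩ := ((hopen w).1 hwo).1 x hxw
          refine ⟨n, trivial, ?_⟩
          rintro _ ⟨y, hy, rfl⟩
          exact hw (hn hy)
        · rintro ⟨n, _, hn⟩
          refine mem_nhds_iff.2 ⟨Sum.inl '' (Up e n x) ∪ Sum.inr '' ∅, ?_, hO _ _ (S₀.isOpen_N n x)
            (@isOpen_empty W1 S₁.top), Or.inl ⟨x, S₀.self n x, rfl⟩⟩
          simpa using hn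
      exact hb.isCountablyGenerated
    · have hb : (𝓝 (Sum.inr x : W1 ⊕ W1)).HasBasis (fun _ : ℕ => True) fun n => Sum.inr '' (Dn e n x) := by
        refine ⟨fun t => ?_⟩
        constructor
        · intro ht
          obtain ⟨w, hw, hwo, hxw⟩ := mem_nhds_iff.1 ht
          obtain ⟨n, hn⟩ := ((hopen w).1 hwo).2 x hxw
          refine ⟨n, trivial, ?_⟩
          rintro _ ⟨y, hy, rfl⟩
          exact hw (hn hy)
        · rintro ⟨n, _, hn⟩
          refine mem_nhds_iff.2 ⟨Sum.inl '' ∅ ∪ Sum.inr '' (Dn e n x), ?_, hO _ _ (@isOpen_empty W1 S₀.top)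
            (S₁.isOpen_N n x), Or.inr ⟨x, S₁.self n x, rfl⟩⟩
          simpa using hn
      exact hb.isCountablyGenerated
  · -- cardinality
    have h1 : Cardinal.mk W1 = Cardinal.aleph 1 := by simp [W1]
    have h2 : Cardinal.mk (W1 ⊕ W1) = Cardinal.mk W1 + Cardinal.mk W1 := by
      simp
    rw [h2, h1]
    exact Cardinal.add_eq_self (Cardinal.aleph0_le_aleph 1)
  · -- not ω-Rothberger
    intro h
    obtain ⟨s, hs1, hs2⟩ := h (fun _ => 𝒰) (fun _ => h𝒰)
    exact hnot (range s) (by rintro _ ⟨n, rfl⟩; exact hs1 n) (countable_range s) hs2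
  · -- the square is not Lindelöf
    intro hL
    choose N hN using fun p : W1 × W1 => orth he p.1 p.2
    -- an open neighbourhood for each point of the square
    have hnb : ∀ p : (W1 ⊕ W1) × (W1 ⊕ W1), ∃ G : Set ((W1 ⊕ W1) × (W1 ⊕ W1)), G ∈ 𝓝 p ∧
        {x : W1 | ((Sum.inl x : W1 ⊕ W1), (Sum.inr x : W1 ⊕ W1)) ∈ G}.Countable := by
      rintro ⟨p | p, q | q⟩
      · refine ⟨univ ×ˢ (Sum.inl '' univ ∪ Sum.inr '' ∅), ?_, ?_⟩
        · refine IsOpen.mem_nhds (isOpen_univ.prod (hO _ _ (@isOpen_univ W1 S₀.top)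
            (@isOpen_empty W1 S₁.top))) ?_
          simp
        · convert countable_empty
          ext x
          simp
      · refine ⟨(Sum.inl '' (Up e (N (p, q)) p) ∪ Sum.inr '' ∅) ×ˢ
          (Sum.inl '' ∅ ∪ Sum.inr '' (Dn e (N (p, q)) q)), ?_, ?_⟩
        · refine IsOpen.mem_nhds ((hO _ _ (S₀.isOpen_N _ _) (@isOpen_empty W1 S₁.top)).prod
            (hO _ _ (@isOpen_empty W1 S₀.top) (S₁.isOpen_N _ _))) ?_
          exact ⟨Or.inl ⟨p, S₀.self _ _, rfl⟩, Or.inr ⟨q, S₁.self _ _, rfl⟩⟩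
        · refine (countable_singleton p).mono ?_
          intro x hx
          refine hN (p, q) ?_
          obtain ⟨h1, h2⟩ := hx
          simpa using And.intro h1 h2
      · refine ⟨(Sum.inl '' ∅ ∪ Sum.inr '' univ) ×ˢ univ, ?_, ?_⟩
        · refine IsOpen.mem_nhds ((hO _ _ (@isOpen_empty W1 S₀.top) (@isOpen_univ W1 S₁.top)).prod
            isOpen_univ) ?_
          simp
        · convert countable_empty
          ext x
          simp
      · refine ⟨(Sum.inl '' ∅ ∪ Sum.inr '' univ) ×ˢ univ, ?_, ?_⟩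
        · refine IsOpen.mem_nhds ((hO _ _ (@isOpen_empty W1 S₀.top) (@isOpen_univ W1 S₁.top)).prod
            isOpen_univ) ?_
          simp
        · convert countable_empty
          ext x
          simp
    choose G hG1 hG2 using hnb
    obtain ⟨t, ht, ht2⟩ := (isLindelof_univ (X := (W1 ⊕ W1) × (W1 ⊕ W1))).elim_nhds_subcover G (fun p _ => hG1 p)
    have h1 : (univ : Set W1) ⊆ ⋃ p ∈ t, {x : W1 | ((Sum.inl x : W1 ⊕ W1), (Sum.inr x : W1 ⊕ W1)) ∈ G p} := by
      intro x _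
      have h2 := ht2.2 (mem_univ ((Sum.inl x : W1 ⊕ W1), (Sum.inr x : W1 ⊕ W1)))
      simp only [mem_iUnion] at h2 ⊢
      exact h2
    exact not_countable_univ_iff.2 W1_uncountable
      ((ht.biUnion fun p _ => hG2 p).mono h1)

end Pool.Agent.Results.MP_f9bcb0_lc.RothbergerNotOmega
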